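import Pool.Agent.V113.FPR.Main

/-!
# MP_9ff724_al: every excellent regular ring of prime characteristic is F-pure regular

The statement is proved for every regular ring of prime characteristic `p` which is J-2 (part of
the definition of excellent), and more generally for every regular ring `R` of characteristic `p`
such that the regular locus of `R / 𝔭` contains a nonempty open set for every prime `𝔭`; in this
generality all but finitely many of the maps `λ^e_c` are pure.
-/

set_option autoImplicit false

open Pool.Agent.V113.FPR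

namespace Pool.Agent.Results.MP_9ff724_al.ExcellentRegular

universe u

theorem result :
    (∀ (p : ℕ) [Fact p.Prime] (R : Type u) [CommRing R] [IsRegularRing R] [CharP R p],
      IsJ2 R → FPureRegular R p) ∧
    (∀ (p : ℕ) [Fact p.Prime] (R : Type u) [CommRing R] [IsRegularRing R] [CharP R p],
      (∀ P : Ideal R, P.IsPrime → IsJ0 (R ⧸ P)) →
      ∀ c : R, (∀ 𝔮 ∈ minimalPrimes R, c ∉ 𝔮) →
        ∃ e₀ : ℕ, ∀ e : ℕ, e₀ ≤ e → IsPureMap (lam R p e c)) := by
  refine ⟨fun p _ R _ _ _ h => fpr_of_J0 p R (J0_of_J2 h), ?_⟩
  intro p hp R _ _ _ hJ c hc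
  obtain ⟨r, hr⟩ := bound p hJ c hc ⊥
  refine ⟨r, fun e he => pure_of_not_mem p e R c fun m hm => ?_⟩
  apply hr m hm.isPrime bot_le
  have h1 : e < p ^ e := Nat.lt_pow_self hp.out.one_lt
  omega

end Pool.Agent.Results.MP_9ff724_al.ExcellentRegular
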